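import Pool.Agent.Helper89.TT.Basic

set_option autoImplicit false

open Finset

namespace Pool.Agent.Helper89.TT

theorem gc_prod (k R : ℕ) (hk : 0 < k) (F : Finset ℕ) :
    (∀ e ∈ F, k ≤ R * Nat.gcd k e) → k ≤ R ^ F.card * Nat.gcd k (F.gcd id) := by
  classical
  induction F using Finset.induction_on with
  | empty => intro _; simp
  | insert e F he ih =>
    intro h
    have h1 := ih (fun x hx => h x (Finset.mem_insert_of_mem hx))
    have h2 := h e (Finset.mem_insert_self e F)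
    rw [Finset.card_insert_of_notMem he, Finset.gcd_insert]
    have e0 : GCDMonoid.gcd (id e) (F.gcd id) = Nat.gcd e (F.gcd id) := rfl
    rw [e0]
    set g := F.gcd id with hg
    set d1 := Nat.gcd k g with hd1
    set d2 := Nat.gcd k e with hd2
    have h3 : d1 * d2 ≤ Nat.gcd k (Nat.gcd e g) * k := by
      rw [← Nat.gcd_mul_lcm d1 d2]
      apply Nat.mul_le_mul
      · apply Nat.le_of_dvd (Nat.gcd_pos_of_pos_left _ hk)
        refine Nat.dvd_gcd ((Nat.gcd_dvd_left _ _).trans (Nat.gcd_dvd_left _ _)) (Nat.dvd_gcd ?_ ?_)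
        · exact (Nat.gcd_dvd_right _ _).trans (Nat.gcd_dvd_right _ _)
        · exact (Nat.gcd_dvd_left _ _).trans (Nat.gcd_dvd_right _ _)
      · exact Nat.le_of_dvd hk (Nat.lcm_dvd (Nat.gcd_dvd_left _ _) (Nat.gcd_dvd_left _ _))
    have h4 : k * k ≤ (R ^ (F.card + 1) * Nat.gcd k (Nat.gcd e g)) * k :=
      calc k * k ≤ (R ^ F.card * d1) * (R * d2) := Nat.mul_le_mul h1 h2
        _ = R ^ (F.card + 1) * (d1 * d2) := by ring
        _ ≤ R ^ (F.card + 1) * (Nat.gcd k (Nat.gcd e g) * k) := Nat.mul_le_mul_left _ h3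
        _ = (R ^ (F.card + 1) * Nat.gcd k (Nat.gcd e g)) * k := by ring
    exact Nat.le_of_mul_le_mul_right h4 hk

theorem gc_choose (A B : Finset ℕ) (hA : 2 ≤ A.card) (hB : 2 ≤ B.card)
    (hAB : 5 ≤ A.card + B.card) (a b : ℕ) (ha : a ∈ A) (hb : b ∈ B) (ha0 : 0 < a) (hb0 : 0 < b) :
    ∃ a' ∈ A, ∃ b' ∈ B, a ≠ a' ∧ b ≠ b' ∧ a * a' ≠ b * b' := by
  classical
  have hA1 : (A.erase a).card = A.card - 1 := Finset.card_erase_of_mem ha
  have hB1 : (B.erase b).card = B.card - 1 := Finset.card_erase_of_mem hb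
  have hA2 : (A.erase a).Nonempty := Finset.card_pos.1 (by omega)
  have hB2 : (B.erase b).Nonempty := Finset.card_pos.1 (by omega)
  rcases le_or_gt 3 A.card with h3 | h3
  · obtain ⟨b', hb'⟩ := hB2
    obtain ⟨a1, ha1, a2, ha2, hne⟩ := Finset.one_lt_card.1 (show 1 < (A.erase a).card by omega)
    rw [Finset.mem_erase] at hb' ha1 ha2
    by_cases h : a * a1 = b * b'
    · refine ⟨a2, ha2.2, b', hb'.2, ha2.1.symm, hb'.1.symm, fun h' => hne ?_⟩
      exact Nat.eq_of_mul_eq_mul_left ha0 (h.trans h'.symm)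
    · exact ⟨a1, ha1.2, b', hb'.2, ha1.1.symm, hb'.1.symm, h⟩
  · obtain ⟨a', ha'⟩ := hA2
    obtain ⟨b1, hb1, b2, hb2, hne⟩ := Finset.one_lt_card.1 (show 1 < (B.erase b).card by omega)
    rw [Finset.mem_erase] at ha' hb1 hb2
    by_cases h : a * a' = b * b1
    · refine ⟨a', ha'.2, b2, hb2.2, ha'.1.symm, hb2.1.symm, fun h' => hne ?_⟩
      exact Nat.eq_of_mul_eq_mul_left hb0 (h.symm.trans h')
    · exact ⟨a', ha'.2, b1, hb1.2, ha'.1.symm, hb1.1.symm, h⟩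

theorem st_GC (h1 : ST_GC1) : ST_GC := by
  classical
  intro A B N M hM hA hB hAB hAN hBN hsq hgcd hrich a ha b hb
  have hquad : ∀ x ∈ A, ∀ x' ∈ A, ∀ y ∈ B, ∀ y' ∈ B, x ≠ x' → y ≠ y' → Quad N x x' y y' := by
    intro x hx x' hx' y hy y' hy' hxx hyy
    exact ⟨(hAN x hx).1, (hAN x hx).2, (hAN x' hx').1, (hAN x' hx').2, (hBN y hy).1, (hBN y hy).2,
      (hBN y' hy').1, (hBN y' hy').2, hxx, hyy, hsq x hx y hy, hsq x hx y' hy', hsq x' hx' y hy,
      hsq x' hx' y' hy'⟩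
  have ha0 : 0 < a := (hAN a ha).1
  have hb0 : 0 < b := (hBN b hb).1
  obtain ⟨a', ha', b', hb', haa, hbb, hne⟩ := gc_choose A B hA hB hAB a b ha hb ha0 hb0
  set k := Nat.gcd a b with hk
  have hk0 : 0 < k := Nat.gcd_pos_of_pos_left _ ha0
  set t := Nat.gcd k (Nat.gcd a' b') with ht
  have hi : k ≤ 2 * M ^ 8 * t :=
    (h1 N M a a' b b' hM (hquad a ha a' ha' b hb b' hb' haa hbb)
      (hrich a ha a' ha' b hb b' hb' haa hbb)).1 hne
  have htb : t ≤ Nat.gcd k b' := Nat.le_of_dvd (Nat.gcd_pos_of_pos_left _ hk0)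
    (Nat.dvd_gcd (Nat.gcd_dvd_left _ _) ((Nat.gcd_dvd_right _ _).trans (Nat.gcd_dvd_right _ _)))
  have hta : t ≤ Nat.gcd k a' := Nat.le_of_dvd (Nat.gcd_pos_of_pos_left _ hk0)
    (Nat.dvd_gcd (Nat.gcd_dvd_left _ _) ((Nat.gcd_dvd_right _ _).trans (Nat.gcd_dvd_left _ _)))
  have hself : ∀ e : ℕ, k ∣ e → k ≤ 4 * M ^ 10 * Nat.gcd k e := by
    intro e he
    rw [Nat.gcd_eq_left he]
    have : 1 ≤ M ^ 10 := Nat.one_le_pow _ _ hM
    nlinarith
  have hstep : ∀ s e f : ℕ, t ≤ s → s ≤ 2 * M ^ 2 * Nat.gcd k f → Nat.gcd k f ∣ Nat.gcd k e →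
      k ≤ 4 * M ^ 10 * Nat.gcd k e := by
    intro s e f h2 h3 h4
    have h5 : Nat.gcd k f ≤ Nat.gcd k e := Nat.le_of_dvd (Nat.gcd_pos_of_pos_left _ hk0) h4
    calc k ≤ 2 * M ^ 8 * t := hi
      _ ≤ 2 * M ^ 8 * (2 * M ^ 2 * Nat.gcd k e) :=
          Nat.mul_le_mul_left _ (h2.trans (h3.trans (Nat.mul_le_mul_left _ h5)))
      _ = 4 * M ^ 10 * Nat.gcd k e := by ring
  have hall : ∀ e ∈ A ∪ B, k ≤ 4 * M ^ 10 * Nat.gcd k e := by
    intro e he
    rcases Finset.mem_union.1 he with heA | heB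
    · by_cases h : a = e
      · exact hself e (by rw [← h]; exact Nat.gcd_dvd_left _ _)
      · have h2 := (h1 N M a e b b' hM (hquad a ha e heA b hb b' hb' h hbb)
          (hrich a ha e heA b hb b' hb' h hbb)).2.1
        exact hstep _ e _ htb h2 (Nat.dvd_gcd (Nat.gcd_dvd_left _ _)
          ((Nat.gcd_dvd_right _ _).trans (Nat.gcd_dvd_left _ _)))
    · by_cases h : b = e
      · exact hself e (by rw [← h]; exact Nat.gcd_dvd_right _ _)
      · have h2 := (h1 N M a a' b e hM (hquad a ha a' ha' b hb e heB haa h)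
          (hrich a ha a' ha' b hb e heB haa h)).2.2
        exact hstep _ e _ hta h2 (Nat.dvd_gcd (Nat.gcd_dvd_left _ _)
          ((Nat.gcd_dvd_right _ _).trans (Nat.gcd_dvd_right _ _)))
  have hfin := gc_prod k (4 * M ^ 10) hk0 (A ∪ B) hall
  rw [hgcd, Nat.gcd_one_right, mul_one] at hfin
  refine hfin.trans (Nat.pow_le_pow_right ?_ (Finset.card_union_le A B))
  have : 1 ≤ M ^ 10 := Nat.one_le_pow _ _ hM
  omega

end Pool.Agent.Helper89.TT
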