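import Pool.Agent.Helper89.TT.Basic

set_option autoImplicit false

open Finset

namespace Pool.Agent.Helper89.TT

theorem gc1_mul (x m n : ℕ) (hx : 0 < x) : Nat.gcd x (m * n) ≤ Nat.gcd x m * Nat.gcd x n :=
  Nat.le_of_dvd (Nat.mul_pos (Nat.gcd_pos_of_pos_left _ hx) (Nat.gcd_pos_of_pos_left _ hx))
    (Nat.gcd_mul_right_dvd_mul_gcd x m n)

theorem gc1_three (x l m n p q r : ℕ) (hx : 0 < x) (hp : Nat.gcd x l ≤ p) (hq : Nat.gcd x m ≤ q)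
    (hr : Nat.gcd x n ≤ r) : Nat.gcd x (l * m * n) ≤ p * q * r :=
  calc Nat.gcd x (l * m * n) ≤ Nat.gcd x (l * m) * Nat.gcd x n := gc1_mul x _ _ hx
    _ ≤ (Nat.gcd x l * Nat.gcd x m) * Nat.gcd x n := Nat.mul_le_mul_right _ (gc1_mul x _ _ hx)
    _ ≤ p * q * r := Nat.mul_le_mul (Nat.mul_le_mul hp hq) hr

theorem st_GC1 (h1 : ST_EP) : ST_GC1 := by
  intro N M a a' b b' hM hQ hR
  obtain ⟨ha, -, ha', -, hb, -, hb', -, -, -, -, hs1, hs2, -⟩ := hQ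
  obtain ⟨k, u, v, hP, hk1, hk2⟩ := h1 a b' ha hb' hs1
  have hs2' : IsSquare (b ^ 2 + a' ^ 2) := by rw [add_comm]; exact hs2
  obtain ⟨k', u', v', hP', hk1', hk2'⟩ := h1 b a' hb ha' hs2'
  have hk : 0 < k := hP.2.2.2.1
  have hu : 0 < u := hP.2.2.2.2.1
  have hv : 0 < v := hP.2.2.2.2.2
  have hk' : 0 < k' := hP'.2.2.2.1
  have hea : a = k * u * v := hP.1
  have heb : b = k' * u' * v' := hP'.1
  have hlt : ∀ T : ℕ, ((T ∣ k ∧ (T ∣ u' ∨ T ∣ v')) ∨ ((T ∣ u ∨ T ∣ v) ∧ T ∣ k') ∨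
      (a * a' ≠ b * b' ∧ (T ∣ u ∨ T ∣ v) ∧ (T ∣ u' ∨ T ∣ v'))) → T ≤ M := by
    intro T hT
    by_contra hc
    push Not at hc
    exact hR ⟨k, u, v, k', u', v', T, hP, hP', hc.le, hT⟩
  set t := Nat.gcd (Nat.gcd a b) (Nat.gcd a' b') with ht
  have htpos : 0 < t := Nat.gcd_pos_of_pos_left _ (Nat.gcd_pos_of_pos_left _ ha)
  have hkk : Nat.gcd k k' ≤ 2 * t := by
    apply Nat.le_of_dvd (by omega)
    have h2 : Nat.gcd k k' ∣ Nat.gcd (2 * Nat.gcd a b') (2 * Nat.gcd b a') :=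
      Nat.dvd_gcd ((Nat.gcd_dvd_left _ _).trans hk2) ((Nat.gcd_dvd_right _ _).trans hk2')
    rw [Nat.gcd_mul_left] at h2
    refine h2.trans (Nat.mul_dvd_mul_left 2 ?_)
    have e1 : Nat.gcd (Nat.gcd a b') (Nat.gcd b a') ∣ a :=
      (Nat.gcd_dvd_left _ _).trans (Nat.gcd_dvd_left _ _)
    have e2 : Nat.gcd (Nat.gcd a b') (Nat.gcd b a') ∣ b' :=
      (Nat.gcd_dvd_left _ _).trans (Nat.gcd_dvd_right _ _)
    have e3 : Nat.gcd (Nat.gcd a b') (Nat.gcd b a') ∣ b :=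
      (Nat.gcd_dvd_right _ _).trans (Nat.gcd_dvd_left _ _)
    have e4 : Nat.gcd (Nat.gcd a b') (Nat.gcd b a') ∣ a' :=
      (Nat.gcd_dvd_right _ _).trans (Nat.gcd_dvd_right _ _)
    exact Nat.dvd_gcd (Nat.dvd_gcd e1 e3) (Nat.dvd_gcd e4 e2)
  have hku' : Nat.gcd k u' ≤ M := hlt _ (Or.inl ⟨Nat.gcd_dvd_left _ _, Or.inl (Nat.gcd_dvd_right _ _)⟩)
  have hkv' : Nat.gcd k v' ≤ M := hlt _ (Or.inl ⟨Nat.gcd_dvd_left _ _, Or.inr (Nat.gcd_dvd_right _ _)⟩)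
  have huk' : Nat.gcd u k' ≤ M :=
    hlt _ (Or.inr (Or.inl ⟨Or.inl (Nat.gcd_dvd_left _ _), Nat.gcd_dvd_right _ _⟩))
  have hvk' : Nat.gcd v k' ≤ M :=
    hlt _ (Or.inr (Or.inl ⟨Or.inr (Nat.gcd_dvd_left _ _), Nat.gcd_dvd_right _ _⟩))
  have hkb : Nat.gcd k b ≤ 2 * t * M * M := by
    rw [heb]
    exact gc1_three k k' u' v' _ _ _ hk hkk hku' hkv'
  refine ⟨?_, ?_, ?_⟩
  · intro hne
    have huu' : Nat.gcd u u' ≤ M :=
      hlt _ (Or.inr (Or.inr ⟨hne, Or.inl (Nat.gcd_dvd_left _ _), Or.inl (Nat.gcd_dvd_right _ _)⟩))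
    have huv' : Nat.gcd u v' ≤ M :=
      hlt _ (Or.inr (Or.inr ⟨hne, Or.inl (Nat.gcd_dvd_left _ _), Or.inr (Nat.gcd_dvd_right _ _)⟩))
    have hvu' : Nat.gcd v u' ≤ M :=
      hlt _ (Or.inr (Or.inr ⟨hne, Or.inr (Nat.gcd_dvd_left _ _), Or.inl (Nat.gcd_dvd_right _ _)⟩))
    have hvv' : Nat.gcd v v' ≤ M :=
      hlt _ (Or.inr (Or.inr ⟨hne, Or.inr (Nat.gcd_dvd_left _ _), Or.inr (Nat.gcd_dvd_right _ _)⟩))
    have hub : Nat.gcd u b ≤ M * M * M := by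
      rw [heb]
      exact gc1_three u k' u' v' _ _ _ hu huk' huu' huv'
    have hvb : Nat.gcd v b ≤ M * M * M := by
      rw [heb]
      exact gc1_three v k' u' v' _ _ _ hv hvk' hvu' hvv'
    have h3 : Nat.gcd a b ≤ (2 * t * M * M) * (M * M * M) * (M * M * M) := by
      rw [Nat.gcd_comm, hea]
      apply gc1_three b k u v _ _ _ hb
      · rw [Nat.gcd_comm]; exact hkb
      · rw [Nat.gcd_comm]; exact hub
      · rw [Nat.gcd_comm]; exact hvb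
    calc Nat.gcd a b ≤ (2 * t * M * M) * (M * M * M) * (M * M * M) := h3
      _ = 2 * M ^ 8 * t := by ring
  · have h3 : Nat.gcd (Nat.gcd a b) b' ∣ Nat.gcd k b := by
      apply Nat.dvd_gcd
      · exact (Nat.dvd_gcd ((Nat.gcd_dvd_left _ _).trans (Nat.gcd_dvd_left _ _))
          (Nat.gcd_dvd_right _ _)).trans hk1
      · exact (Nat.gcd_dvd_left _ _).trans (Nat.gcd_dvd_right _ _)
    calc Nat.gcd (Nat.gcd a b) b' ≤ Nat.gcd k b :=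
          Nat.le_of_dvd (Nat.gcd_pos_of_pos_left _ hk) h3
      _ ≤ 2 * t * M * M := hkb
      _ = 2 * M ^ 2 * t := by ring
  · have h3 : Nat.gcd (Nat.gcd a b) a' ∣ Nat.gcd k' a := by
      apply Nat.dvd_gcd
      · exact (Nat.dvd_gcd ((Nat.gcd_dvd_left _ _).trans (Nat.gcd_dvd_right _ _))
          (Nat.gcd_dvd_right _ _)).trans hk1'
      · exact (Nat.gcd_dvd_left _ _).trans (Nat.gcd_dvd_left _ _)
    have h4 : Nat.gcd k' a ≤ 2 * t * M * M := by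
      rw [hea]
      apply gc1_three k' k u v _ _ _ hk'
      · rw [Nat.gcd_comm]; exact hkk
      · rw [Nat.gcd_comm]; exact huk'
      · rw [Nat.gcd_comm]; exact hvk'
    calc Nat.gcd (Nat.gcd a b) a' ≤ Nat.gcd k' a :=
          Nat.le_of_dvd (Nat.gcd_pos_of_pos_left _ hk') h3
      _ ≤ 2 * t * M * M := h4
      _ = 2 * M ^ 2 * t := by ring

end Pool.Agent.Helper89.TT
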