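import Pool.Agent.Helper89.TT.Stmts3

set_option autoImplicit false

open Finset

namespace Pool.Agent.Helper89.TT

theorem gc2_pair {A : Finset ℕ} (h : A.card = 2) {a : ℕ} (ha : a ∈ A) :
    ∃ a', a ≠ a' ∧ A = {a, a'} := by
  obtain ⟨p, q, hpq, rfl⟩ := Finset.card_eq_two.1 h
  rw [Finset.mem_insert, Finset.mem_singleton] at ha
  rcases ha with rfl | rfl
  · exact ⟨q, hpq, rfl⟩
  · exact ⟨p, hpq.symm, Finset.pair_comm p a⟩

theorem st_GC2 (h1 : ST_GC1) : ST_GC2 := by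
  classical
  intro A B N M hM hA hB hne hAN hBN hsq hgcd hrich a ha b hb
  obtain ⟨a', haa, rfl⟩ := gc2_pair hA ha
  obtain ⟨b', hbb, rfl⟩ := gc2_pair hB hb
  have ha' : a' ∈ ({a, a'} : Finset ℕ) := Finset.mem_insert_of_mem (Finset.mem_singleton_self a')
  have hb' : b' ∈ ({b, b'} : Finset ℕ) := Finset.mem_insert_of_mem (Finset.mem_singleton_self b')
  rw [Finset.prod_pair haa, Finset.prod_pair hbb] at hne
  have hQ : Quad N a a' b b' :=
    ⟨(hAN a ha).1, (hAN a ha).2, (hAN a' ha').1, (hAN a' ha').2, (hBN b hb).1, (hBN b hb).2,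
      (hBN b' hb').1, (hBN b' hb').2, haa, hbb, hsq a ha b hb, hsq a ha b' hb', hsq a' ha' b hb,
      hsq a' ha' b' hb'⟩
  have h2 := (h1 N M a a' b b' hM hQ (hrich a ha a' ha' b hb b' hb' haa hbb)).1 hne
  have h3 : Nat.gcd (Nat.gcd a b) (Nat.gcd a' b') ∣ 1 := by
    rw [← hgcd]
    apply Finset.dvd_gcd
    intro e he
    have e1 : Nat.gcd (Nat.gcd a b) (Nat.gcd a' b') ∣ a :=
      (Nat.gcd_dvd_left _ _).trans (Nat.gcd_dvd_left _ _)
    have e2 : Nat.gcd (Nat.gcd a b) (Nat.gcd a' b') ∣ b :=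
      (Nat.gcd_dvd_left _ _).trans (Nat.gcd_dvd_right _ _)
    have e3 : Nat.gcd (Nat.gcd a b) (Nat.gcd a' b') ∣ a' :=
      (Nat.gcd_dvd_right _ _).trans (Nat.gcd_dvd_left _ _)
    have e4 : Nat.gcd (Nat.gcd a b) (Nat.gcd a' b') ∣ b' :=
      (Nat.gcd_dvd_right _ _).trans (Nat.gcd_dvd_right _ _)
    rcases Finset.mem_union.1 he with h | h
    · rw [Finset.mem_insert, Finset.mem_singleton] at h
      rcases h with rfl | rfl
      · exact e1
      · exact e3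
    · rw [Finset.mem_insert, Finset.mem_singleton] at h
      rcases h with rfl | rfl
      · exact e2
      · exact e4
  rw [Nat.dvd_one.1 h3, mul_one] at h2
  rw [hA, hB]
  have h4 : M ^ 8 ≤ M ^ 10 := Nat.pow_le_pow_right hM (by norm_num)
  have h5 : 1 ≤ M ^ 10 := Nat.one_le_pow _ _ hM
  calc Nat.gcd a b ≤ 2 * M ^ 8 := h2
    _ ≤ 4 * M ^ 10 := by omega
    _ = (4 * M ^ 10) ^ 1 := (pow_one _).symm
    _ ≤ (4 * M ^ 10) ^ (2 + 2) := Nat.pow_le_pow_right (by omega) (by norm_num)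

end Pool.Agent.Helper89.TT
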