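import Pool.Agent.Helper89.TT.Basic

set_option autoImplicit false

open Finset

namespace Pool.Agent.Helper89.TT

/-- the hypothesis on one quadruple -/
def np_ok (N K : ℕ) (q : ℕ × ℕ × ℕ × ℕ) : Prop :=
  Quad N q.1 q.2.1 q.2.2.1 q.2.2.2 ∧ Nat.gcd q.1 q.2.2.1 ≤ K ∧
    Nat.gcd q.1 q.2.2.2 ≤ K ∧ Nat.gcd q.2.1 q.2.2.1 ≤ K ∧ Nat.gcd q.2.1 q.2.2.2 ≤ K

theorem np_near (ε C1 C2 : ℝ) (hC2 : 0 ≤ C2) (N K Y : ℕ)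
    (hD : ∀ S : Finset (ℕ × ℕ × ℕ), (∀ t ∈ S, 1 ≤ t.1 ∧ t.1 ≤ N ∧ 1 ≤ t.2.2 ∧ t.2.2 < t.2.1 ∧
      t.2.1 ≤ N ∧ t.2.1 < t.2.2 + Y ∧ IsSquare (t.1 ^ 2 + t.2.1 ^ 2) ∧
      IsSquare (t.1 ^ 2 + t.2.2 ^ 2) ∧ Nat.gcd t.1 t.2.1 ≤ K ∧ Nat.gcd t.1 t.2.2 ≤ K) →
      (S.card : ℝ) ≤ C1 * (K : ℝ) ^ 12 * (Y : ℝ) * (N : ℝ) ^ ε)
    (hB : ∀ a : ℕ, 1 ≤ a → a ≤ N →
      ∀ S : Finset ℕ, (∀ b ∈ S, 1 ≤ b ∧ b ≤ N ∧ IsSquare (a ^ 2 + b ^ 2)) →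
      (S.card : ℝ) ≤ C2 * (N : ℝ) ^ ε)
    (S : Finset (ℕ × ℕ × ℕ × ℕ)) (hS : ∀ q ∈ S, np_ok N K q)
    (hlt : ∀ q ∈ S, q.2.2.2 < q.2.2.1) (hnear : ∀ q ∈ S, q.2.2.1 < q.2.2.2 + Y) :
    (S.card : ℝ) ≤ (C1 * (K : ℝ) ^ 12 * (Y : ℝ) * (N : ℝ) ^ ε) * (C2 * (N : ℝ) ^ ε) := by
  classical
  refine fib_le S (fun q => (q.1, q.2.2.1, q.2.2.2)) _ _ ?_ (by positivity) ?_
  · apply hD
    intro t ht
    obtain ⟨q, hq, rfl⟩ := Finset.mem_image.1 ht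
    obtain ⟨hQ, g1, g2, -, -⟩ := hS q hq
    obtain ⟨h1, h2, -, -, -, h6, h7, -, -, -, s1, s2, -, -⟩ := hQ
    exact ⟨h1, h2, h7, hlt q hq, h6, hnear q hq, s1, s2, g1, g2⟩
  · intro t ht
    obtain ⟨q0, hq0, hq0t⟩ := Finset.mem_image.1 ht
    refine card_le_of_inj _ (fun q => q.2.1) _ ?_ ?_
    · intro x hx y hy hxy
      have e1 := (Finset.mem_filter.1 hx).2
      have e2 := (Finset.mem_filter.1 hy).2
      have e3 := e1.trans e2.symm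
      simp only [Prod.mk.injEq] at e3 hxy
      obtain ⟨x1, x2, x3, x4⟩ := x
      obtain ⟨y1, y2, y3, y4⟩ := y
      simp only at e3 hxy
      rw [e3.1, e3.2.1, e3.2.2, hxy]
    · have hQ0 := (hS q0 hq0).1
      obtain ⟨-, -, -, -, h5, h6, -⟩ := hQ0
      apply hB q0.2.2.1 h5 h6
      intro b hb
      obtain ⟨q, hq, rfl⟩ := Finset.mem_image.1 hb
      obtain ⟨hq1, hq2⟩ := Finset.mem_filter.1 hq
      obtain ⟨-, -, g3, g4, -, -, -, -, -, -, -, -, s3, -⟩ := (hS q hq1).1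
      have e3 := hq2.trans hq0t.symm
      simp only [Prod.mk.injEq] at e3
      refine ⟨g3, g4, ?_⟩
      rw [← e3.2.1, add_comm]
      exact s3

theorem np_far (hT : ST_TUP) (N K Y : ℕ) (C : ℝ)
    (hbox : ∀ E : Finset ((ℕ × ℕ) × (ℕ × ℕ) × (ℕ × ℕ) × ℕ × ℕ),
      (∀ e ∈ E, Tup (16 * K ^ 3) (2 * K) N Y e.1.1 e.1.2 e.2.1.1 e.2.1.2 e.2.2.1.1 e.2.2.1.2
        e.2.2.2.1 e.2.2.2.2) → (E.card : ℝ) ≤ C)
    (S : Finset (ℕ × ℕ × ℕ × ℕ)) (hS : ∀ q ∈ S, np_ok N K q)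
    (hlt : ∀ q ∈ S, q.2.2.2 < q.2.2.1) (hfar : ∀ q ∈ S, q.2.2.2 + Y ≤ q.2.2.1) :
    (S.card : ℝ) ≤ C := by
  classical
  have hex : ∀ q : ℕ × ℕ × ℕ × ℕ, ∃ e : (ℕ × ℕ) × (ℕ × ℕ) × (ℕ × ℕ) × ℕ × ℕ, q ∈ S →
      Tup (16 * K ^ 3) (2 * K) N Y e.1.1 e.1.2 e.2.1.1 e.2.1.2 e.2.2.1.1 e.2.2.1.2
        e.2.2.2.1 e.2.2.2.2 ∧
      q.2.2.1 + q.2.2.2 = e.1.1 * e.2.1.1 * (e.2.2.1.1 * e.2.2.2.1) ∧
      q.2.2.1 = q.2.2.2 + e.1.2 * e.2.1.2 * (e.2.2.1.2 * e.2.2.2.2) ∧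
      4 * q.1 ^ 2 + (e.1.1 * e.2.1.1 * (e.2.2.1.1 * e.2.2.2.1)) ^ 2 +
        (e.1.2 * e.2.1.2 * (e.2.2.1.2 * e.2.2.2.2)) ^ 2 =
        (e.1.2 * e.2.1.2 * (e.2.2.1.1 * e.2.2.2.1)) ^ 2 +
        (e.1.1 * e.2.1.1 * (e.2.2.1.2 * e.2.2.2.2)) ^ 2 ∧
      4 * q.2.1 ^ 2 + (e.1.1 * e.2.1.1 * (e.2.2.1.1 * e.2.2.2.1)) ^ 2 +
        (e.1.2 * e.2.1.2 * (e.2.2.1.2 * e.2.2.2.2)) ^ 2 =
        (e.1.2 * e.2.2.1.2 * (e.2.1.1 * e.2.2.2.1)) ^ 2 +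
        (e.1.1 * e.2.2.1.1 * (e.2.1.2 * e.2.2.2.2)) ^ 2 := by
    intro q
    by_cases hq : q ∈ S
    · obtain ⟨hQ, g1, g2, g3, g4⟩ := hS q hq
      obtain ⟨a, a', b, b', g, g', d, d', h⟩ :=
        hT N K Y q.1 q.2.1 q.2.2.1 q.2.2.2 hQ (hlt q hq) (hfar q hq) g1 g2 g3 g4
      exact ⟨((a, a'), (b, b'), (g, g'), d, d'), fun _ => h⟩
    · exact ⟨((0, 0), (0, 0), (0, 0), 0, 0), fun h => absurd h hq⟩
  choose F hF using hex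
  refine card_le_of_inj S F C ?_ ?_
  · intro x hx y hy hxy
    obtain ⟨-, x1, x2, x3, x4⟩ := hF x hx
    obtain ⟨-, y1, y2, y3, y4⟩ := hF y hy
    rw [← hxy] at y1 y2 y3 y4
    have e1 : x.2.2.1 = y.2.2.1 := by omega
    have e2 : x.2.2.2 = y.2.2.2 := by omega
    have e3 : x.1 ^ 2 = y.1 ^ 2 := by omega
    have e4 : x.2.1 ^ 2 = y.2.1 ^ 2 := by omega
    have e5 : x.1 = y.1 := Nat.pow_left_injective two_ne_zero e3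
    have e6 : x.2.1 = y.2.1 := Nat.pow_left_injective two_ne_zero e4
    obtain ⟨x1, x2, x3, x4⟩ := x
    obtain ⟨y1, y2, y3, y4⟩ := y
    simp only at e1 e2 e5 e6
    rw [e1, e2, e5, e6]
  · apply hbox
    intro e he
    obtain ⟨q, hq, rfl⟩ := Finset.mem_image.1 he
    exact (hF q hq).1

theorem st_NP (hT : ST_TUP) (hB : ST_BOX) (hD : ST_DIFF) (hNB : ST_NB) : ST_NP := by
  classical
  intro ε hε
  obtain ⟨C1, hC1, hD'⟩ := hD (ε / 3) (by positivity)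
  obtain ⟨C2, hC2, hN'⟩ := hNB (ε / 3) (by positivity)
  obtain ⟨C3, hC3, hB'⟩ := hB (ε / 3) (by positivity)
  refine ⟨2 * (2 * C1 * C2 + C3 * 32 ^ 24), ?_, ?_⟩
  · have : 1 ≤ C1 * C2 := by nlinarith
    nlinarith
  intro N K hN hK hKN S hS
  have hN0 : (1 : ℝ) ≤ N := by exact_mod_cast hN
  have hNpos : (0 : ℝ) < N := by linarith
  have hK0 : (1 : ℝ) ≤ K := by exact_mod_cast hK
  set Z : ℝ := (N : ℝ) ^ (19 / 20 : ℝ) with hZ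
  have hZ1 : 1 ≤ Z := Real.one_le_rpow hN0 (by norm_num)
  have hZN : Z ≤ N := by
    calc Z ≤ (N : ℝ) ^ (1 : ℝ) := Real.rpow_le_rpow_of_exponent_le hN0 (by norm_num)
      _ = N := Real.rpow_one _
  set Y : ℕ := ⌈Z⌉₊ with hY
  have hZY : Z ≤ Y := Nat.le_ceil Z
  have hYN : Y ≤ N := Nat.ceil_le.2 hZN
  have hY1 : 1 ≤ Y := by
    have : (1 : ℝ) ≤ Y := hZ1.trans hZY
    exact_mod_cast this
  have hY2 : (Y : ℝ) ≤ 2 * Z := by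
    have := Nat.ceil_lt_add_one (le_trans zero_le_one hZ1)
    rw [← hY] at this
    linarith
  have hYpos : (0 : ℝ) < Y := by exact_mod_cast hY1
  -- the one-sided bound
  have core : ∀ S : Finset (ℕ × ℕ × ℕ × ℕ), (∀ q ∈ S, np_ok N K q) →
      (∀ q ∈ S, q.2.2.2 < q.2.2.1) →
      (S.card : ℝ) ≤ (2 * C1 * C2 + C3 * 32 ^ 24) * (K : ℝ) ^ 96 * (N : ℝ) ^ (19 / 20 + ε) := by
    intro S hS hlt
    have hsplit : (S.card : ℝ) = ((S.filter (fun q => q.2.2.1 < q.2.2.2 + Y)).card : ℝ) +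
        ((S.filter (fun q => ¬ q.2.2.1 < q.2.2.2 + Y)).card : ℝ) := by
      rw [← Nat.cast_add, Finset.card_filter_add_card_filter_not]
    have hnear := np_near (ε / 3) C1 C2 (by linarith) N K Y
      (hD' N K Y hN hK hKN) (hN' N hN) (S.filter (fun q => q.2.2.1 < q.2.2.2 + Y))
      (fun q hq => hS q (Finset.mem_filter.1 hq).1)
      (fun q hq => hlt q (Finset.mem_filter.1 hq).1) (fun q hq => (Finset.mem_filter.1 hq).2)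
    have hfar := np_far hT N K Y _
      (hB' N (16 * K ^ 3) (2 * K) Y hN (by have := Nat.one_le_pow 3 K hK; omega) (by omega)
        (Nat.mul_le_mul_left _ (Nat.pow_le_pow_left hKN 3)) hY1 hYN)
      (S.filter (fun q => ¬ q.2.2.1 < q.2.2.2 + Y))
      (fun q hq => hS q (Finset.mem_filter.1 hq).1)
      (fun q hq => hlt q (Finset.mem_filter.1 hq).1)
      (fun q hq => not_lt.1 (Finset.mem_filter.1 hq).2)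
    have hE : 0 ≤ (N : ℝ) ^ (ε / 3) := Real.rpow_nonneg hNpos.le _
    have hK96 : (K : ℝ) ^ 12 ≤ (K : ℝ) ^ 96 := pow_le_pow_right₀ hK0 (by norm_num)
    have hn2 : (C1 * (K : ℝ) ^ 12 * (Y : ℝ) * (N : ℝ) ^ (ε / 3)) * (C2 * (N : ℝ) ^ (ε / 3)) ≤
        2 * C1 * C2 * (K : ℝ) ^ 96 * (N : ℝ) ^ (19 / 20 + ε) := by
      have e1 : (N : ℝ) ^ (19 / 20 + 2 * (ε / 3)) = Z * ((N : ℝ) ^ (ε / 3) * (N : ℝ) ^ (ε / 3)) := by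
        rw [Real.rpow_add hNpos, hZ, two_mul, Real.rpow_add hNpos]
      have e2 : (N : ℝ) ^ (19 / 20 + 2 * (ε / 3)) ≤ (N : ℝ) ^ (19 / 20 + ε) :=
        Real.rpow_le_rpow_of_exponent_le hN0 (by linarith)
      calc (C1 * (K : ℝ) ^ 12 * (Y : ℝ) * (N : ℝ) ^ (ε / 3)) * (C2 * (N : ℝ) ^ (ε / 3))
          = (C1 * C2 * (K : ℝ) ^ 12) * ((Y : ℝ) * ((N : ℝ) ^ (ε / 3) * (N : ℝ) ^ (ε / 3))) := by ring
        _ ≤ (C1 * C2 * (K : ℝ) ^ 96) *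
            ((2 * Z) * ((N : ℝ) ^ (ε / 3) * (N : ℝ) ^ (ε / 3))) := by gcongr
        _ = 2 * C1 * C2 * (K : ℝ) ^ 96 * (N : ℝ) ^ (19 / 20 + 2 * (ε / 3)) := by rw [e1]; ring
        _ ≤ 2 * C1 * C2 * (K : ℝ) ^ 96 * (N : ℝ) ^ (19 / 20 + ε) := by gcongr
    have hf2 : C3 * (((16 * K ^ 3 : ℕ) : ℝ) * ((2 * K : ℕ) : ℝ)) ^ 24 *
        (N : ℝ) ^ (9 / 10 + ε / 3) * ((N : ℝ) / Y) ≤
        C3 * 32 ^ 24 * (K : ℝ) ^ 96 * (N : ℝ) ^ (19 / 20 + ε) := by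
      have e0 : (((16 * K ^ 3 : ℕ) : ℝ) * ((2 * K : ℕ) : ℝ)) ^ 24 = 32 ^ 24 * (K : ℝ) ^ 96 := by
        push_cast; ring
      have e1 : (N : ℝ) / Y ≤ (N : ℝ) ^ (1 / 20 : ℝ) := by
        rw [div_le_iff₀ hYpos]
        calc (N : ℝ) = (N : ℝ) ^ (1 / 20 : ℝ) * Z := by
              rw [hZ, ← Real.rpow_add hNpos]; norm_num
          _ ≤ (N : ℝ) ^ (1 / 20 : ℝ) * Y :=
              mul_le_mul_of_nonneg_left hZY (Real.rpow_nonneg hNpos.le _)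
      have e2 : (N : ℝ) ^ (9 / 10 + ε / 3) * (N : ℝ) ^ (1 / 20 : ℝ) ≤ (N : ℝ) ^ (19 / 20 + ε) := by
        rw [← Real.rpow_add hNpos]
        exact Real.rpow_le_rpow_of_exponent_le hN0 (by linarith)
      have e3 : 0 ≤ (N : ℝ) ^ (9 / 10 + ε / 3) := Real.rpow_nonneg hNpos.le _
      rw [e0]
      calc C3 * (32 ^ 24 * (K : ℝ) ^ 96) * (N : ℝ) ^ (9 / 10 + ε / 3) * ((N : ℝ) / Y)
          ≤ C3 * (32 ^ 24 * (K : ℝ) ^ 96) * (N : ℝ) ^ (9 / 10 + ε / 3) *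
            (N : ℝ) ^ (1 / 20 : ℝ) := by gcongr
        _ = C3 * 32 ^ 24 * (K : ℝ) ^ 96 *
            ((N : ℝ) ^ (9 / 10 + ε / 3) * (N : ℝ) ^ (1 / 20 : ℝ)) := by ring
        _ ≤ C3 * 32 ^ 24 * (K : ℝ) ^ 96 * (N : ℝ) ^ (19 / 20 + ε) := by gcongr
    rw [hsplit]
    calc ((S.filter (fun q => q.2.2.1 < q.2.2.2 + Y)).card : ℝ) +
        ((S.filter (fun q => ¬ q.2.2.1 < q.2.2.2 + Y)).card : ℝ)
        ≤ 2 * C1 * C2 * (K : ℝ) ^ 96 * (N : ℝ) ^ (19 / 20 + ε) +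
          C3 * 32 ^ 24 * (K : ℝ) ^ 96 * (N : ℝ) ^ (19 / 20 + ε) :=
          add_le_add (hnear.trans hn2) (hfar.trans hf2)
      _ = (2 * C1 * C2 + C3 * 32 ^ 24) * (K : ℝ) ^ 96 * (N : ℝ) ^ (19 / 20 + ε) := by ring
  have hsplit : (S.card : ℝ) = ((S.filter (fun q => q.2.2.2 < q.2.2.1)).card : ℝ) +
      ((S.filter (fun q => ¬ q.2.2.2 < q.2.2.1)).card : ℝ) := by
    rw [← Nat.cast_add, Finset.card_filter_add_card_filter_not]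
  have h1 := core (S.filter (fun q => q.2.2.2 < q.2.2.1))
    (fun q hq => hS q (Finset.mem_filter.1 hq).1) (fun q hq => (Finset.mem_filter.1 hq).2)
  have h2 : ((S.filter (fun q => ¬ q.2.2.2 < q.2.2.1)).card : ℝ) ≤
      (2 * C1 * C2 + C3 * 32 ^ 24) * (K : ℝ) ^ 96 * (N : ℝ) ^ (19 / 20 + ε) := by
    refine card_le_of_inj _ (fun q => ((q.1, q.2.1, q.2.2.2, q.2.2.1) : ℕ × ℕ × ℕ × ℕ)) _ ?_ ?_
    · intro x _ y _ hxy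
      obtain ⟨x1, x2, x3, x4⟩ := x
      obtain ⟨y1, y2, y3, y4⟩ := y
      simp only [Prod.mk.injEq] at hxy
      rw [hxy.1, hxy.2.1, hxy.2.2.1, hxy.2.2.2]
    · apply core
      · intro q hq
        obtain ⟨x, hx, rfl⟩ := Finset.mem_image.1 hq
        obtain ⟨hQ, g1, g2, g3, g4⟩ := hS x (Finset.mem_filter.1 hx).1
        obtain ⟨a1, a2, a3, a4, a5, a6, a7, a8, a9, a10, s1, s2, s3, s4⟩ := hQ
        exact ⟨⟨a1, a2, a3, a4, a7, a8, a5, a6, a9, a10.symm, s2, s1, s4, s3⟩, g2, g1, g4, g3⟩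
      · intro q hq
        obtain ⟨x, hx, rfl⟩ := Finset.mem_image.1 hq
        obtain ⟨hx1, hx2⟩ := Finset.mem_filter.1 hx
        have hne := (hS x hx1).1.2.2.2.2.2.2.2.2.2.1
        simp only
        omega
  rw [hsplit]
  calc _ ≤ (2 * C1 * C2 + C3 * 32 ^ 24) * (K : ℝ) ^ 96 * (N : ℝ) ^ (19 / 20 + ε) +
        (2 * C1 * C2 + C3 * 32 ^ 24) * (K : ℝ) ^ 96 * (N : ℝ) ^ (19 / 20 + ε) :=
        add_le_add h1 h2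
    _ = 2 * (2 * C1 * C2 + C3 * 32 ^ 24) * (K : ℝ) ^ 96 * (N : ℝ) ^ (19 / 20 + ε) := by ring

end Pool.Agent.Helper89.TT
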