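import Pool.Agent.Helper89.TT.Basic

set_option autoImplicit false

open Finset

namespace Pool.Agent.Helper89.TT

theorem sq2_sq {n s t : ℕ} (hs : 0 < s) (h : n * s ^ 2 = t ^ 2) : IsSquare n := by
  have h1 : s ^ 2 ∣ t ^ 2 := ⟨n, by rw [← h]; ring⟩
  have h2 : s ∣ t := (Nat.pow_dvd_pow_iff two_ne_zero).1 h1
  obtain ⟨r, rfl⟩ := h2
  refine ⟨r, ?_⟩
  have h3 : s ^ 2 * n = s ^ 2 * (r * r) := by rw [mul_comm, h]; ring
  exact Nat.eq_of_mul_eq_mul_left (pow_pos hs 2) h3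

theorem sq2_mono {S S' x : ℕ} (h : S ≤ S') (hx : SS S x) : SS S' x := by
  obtain ⟨s, P, h1, h2, h3⟩ := hx
  exact ⟨s, P, h1, h2.trans h, h3⟩

theorem sq2_par (hEP : ST_EP) {K a b c : ℕ} (ha : 0 < a) (hb : 0 < b)
    (h : a ^ 2 + b ^ 2 = c ^ 2) (hK : Nat.gcd a b ≤ K) :
    ∃ k u v : ℕ, 0 < k ∧ k ≤ 2 * K ∧ c + b = k * v ^ 2 ∧ c = b + k * u ^ 2 := by
  obtain ⟨k, u, v, ⟨h1, h2, -, hk, -, -⟩, -, h3⟩ := hEP a b ha hb ⟨c, by rw [h]; ring⟩
  have hk2 : k ≤ 2 * K := by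
    have := Nat.le_of_dvd (Nat.mul_pos two_pos (Nat.gcd_pos_of_pos_left _ ha)) h3
    omega
  have h4 : (2 * c) ^ 2 = (k * v ^ 2 + k * u ^ 2) ^ 2 := by
    have e1 : a ^ 2 = (k * v ^ 2) * (k * u ^ 2) := by rw [h1]; ring
    have e2 : (2 * c) ^ 2 = 4 * (a ^ 2 + b ^ 2) := by rw [h]; ring
    rw [e2, e1, ← h2]
    ring
  have h5 : 2 * c = k * v ^ 2 + k * u ^ 2 := Nat.pow_left_injective two_ne_zero h4
  exact ⟨k, u, v, hk, hk2, by omega, by omega⟩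

theorem st_SQ2 (h1 : ST_EP) (h2 : ST_SQ1) : ST_SQ2 := by
  intro K a b₁ b₂ c₁ c₂ ha hb2 hb hc1 hc2 hK1 hK2
  have hb1 : 0 < b₁ := hb2.trans hb
  have hKpos : 0 < K := lt_of_lt_of_le (Nat.gcd_pos_of_pos_left _ ha) hK1
  have ha2 : 0 < a ^ 2 := pow_pos ha 2
  have hbc1 : b₁ < c₁ := lt_of_pow_lt_pow_left₀ 2 (Nat.zero_le _) (by omega)
  have hbc2 : b₂ < c₂ := lt_of_pow_lt_pow_left₀ 2 (Nat.zero_le _) (by omega)
  have hbb : b₂ ^ 2 < b₁ ^ 2 := Nat.pow_lt_pow_left hb two_ne_zero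
  have hcc : c₂ < c₁ := lt_of_pow_lt_pow_left₀ 2 (Nat.zero_le _) (by omega)
  obtain ⟨k₁, u₁, v₁, hk1, hk1', eA1, eB1⟩ := sq2_par h1 ha hb1 hc1 hK1
  obtain ⟨k₂, u₂, v₂, hk2, hk2', eA2, eB2⟩ := sq2_par h1 ha hb2 hc2 hK2
  obtain ⟨d, hd⟩ : ∃ d, b₁ = b₂ + d := ⟨b₁ - b₂, by omega⟩
  obtain ⟨t, ht⟩ : ∃ t, c₁ = c₂ + t := ⟨c₁ - c₂, by omega⟩
  have hd0 : 0 < d := by omega
  have hst : (b₁ + b₂) * d = (c₁ + c₂) * t := by
    have e1 : b₁ ^ 2 = b₂ ^ 2 + (b₁ + b₂) * d := by rw [hd]; ring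
    have e2 : c₁ ^ 2 = c₂ ^ 2 + (c₁ + c₂) * t := by rw [ht]; ring
    omega
  obtain ⟨m, l, hml, em, el⟩ := Nat.exists_coprime (b₁ + b₂) (c₁ + c₂)
  set h := Nat.gcd (b₁ + b₂) (c₁ + c₂) with hh
  have hh0 : 0 < h := Nat.gcd_pos_of_pos_left _ (by omega)
  have hmd : m * d = l * t := by
    have e1 : h * (m * d) = h * (l * t) := by
      calc h * (m * d) = (m * h) * d := by ring
        _ = (l * h) * t := by rw [← em, ← el, hst]
        _ = h * (l * t) := by ring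
    exact Nat.eq_of_mul_eq_mul_left hh0 e1
  have hm0 : 0 < m := by
    rcases Nat.eq_zero_or_pos m with h0 | h0
    · rw [h0, zero_mul] at em; omega
    · exact h0
  have hmlt : m < l := by
    have e1 : m * h < l * h := by rw [← em, ← el]; omega
    exact Nat.lt_of_mul_lt_mul_right e1
  obtain ⟨h', hh'⟩ : l ∣ d := (Nat.Coprime.dvd_of_dvd_mul_left hml.symm ⟨t, hmd⟩)
  have hth : t = m * h' := by
    have e1 : l * t = l * (m * h') := by rw [← hmd, hh']; ring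
    exact Nat.eq_of_mul_eq_mul_left (by omega) e1
  have hh'0 : 0 < h' := by
    rcases Nat.eq_zero_or_pos h' with h0 | h0
    · rw [h0, mul_zero] at hh'; omega
    · exact h0
  have hhlt : h' < h := by
    have e1 : l * h' < l * h := by
      calc l * h' = d := hh'.symm
        _ < b₁ + b₂ := by omega
        _ < c₁ + c₂ := by omega
        _ = l * h := el
    exact Nat.lt_of_mul_lt_mul_left e1
  obtain ⟨e, he⟩ : ∃ e, l = m + e := ⟨l - m, by omega⟩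
  obtain ⟨j, hj⟩ : ∃ j, h = h' + j := ⟨h - h', by omega⟩
  have he0 : 0 < e := by omega
  have hj0 : 0 < j := by omega
  -- gcd h h'
  have hq : Nat.gcd h h' ≤ 2 * K := by
    have q1 : Nat.gcd h h' ∣ 2 * b₁ := by
      have e1 : 2 * b₁ = m * h + l * h' := by rw [← em, ← hh']; omega
      rw [e1]
      exact Nat.dvd_add (Dvd.dvd.mul_left (Nat.gcd_dvd_left _ _) _)
        (Dvd.dvd.mul_left (Nat.gcd_dvd_right _ _) _)
    have q2 : Nat.gcd h h' ∣ 2 * c₁ := by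
      have e1 : 2 * c₁ = l * h + m * h' := by rw [← el, ← hth]; omega
      rw [e1]
      exact Nat.dvd_add (Dvd.dvd.mul_left (Nat.gcd_dvd_left _ _) _)
        (Dvd.dvd.mul_left (Nat.gcd_dvd_right _ _) _)
    have q3 : Nat.gcd h h' ^ 2 ∣ (2 * a) ^ 2 := by
      have e1 : (2 * b₁) ^ 2 + (2 * a) ^ 2 = (2 * c₁) ^ 2 := by
        calc (2 * b₁) ^ 2 + (2 * a) ^ 2 = 4 * (a ^ 2 + b₁ ^ 2) := by ring
          _ = (2 * c₁) ^ 2 := by rw [hc1]; ring
      have e2 : Nat.gcd h h' ^ 2 ∣ (2 * b₁) ^ 2 + (2 * a) ^ 2 := by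
        rw [e1]
        exact pow_dvd_pow_of_dvd q2 2
      exact (Nat.dvd_add_right (pow_dvd_pow_of_dvd q1 2)).1 e2
    have q4 : Nat.gcd h h' ∣ 2 * a := (Nat.pow_dvd_pow_iff two_ne_zero).1 q3
    have q5 : Nat.gcd h h' ∣ 2 * Nat.gcd a b₁ := by
      rw [← Nat.gcd_mul_left]
      exact Nat.dvd_gcd q4 q1
    have q6 := Nat.le_of_dvd (Nat.mul_pos two_pos (Nat.gcd_pos_of_pos_left _ ha)) q5
    omega
  -- the four identities
  have i1 : 2 * (k₁ * v₁ ^ 2) = (l + m) * (h + h') := by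
    have e1 : (l + m) * (h + h') = (l * h + m * h) + (l * h' + m * h') := by ring
    rw [e1, ← em, ← el, ← hh', ← hth, ← eA1]; omega
  have i2 : 2 * (k₂ * v₂ ^ 2) = (l + m) * j := by
    have e1 : (l + m) * (h' + j) = (l + m) * h' + (l + m) * j := by ring
    have e2 : (l + m) * h = l * h + m * h := by ring
    have e3 : (l + m) * h' = l * h' + m * h' := by ring
    rw [← hj, e2, e3, ← em, ← el, ← hh', ← hth] at e1
    rw [← eA2]; omega
  have i4 : 2 * (k₂ * u₂ ^ 2) = e * (h + h') := by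
    have e1 : (m + e) * h = m * h + e * h := by ring
    have e2 : (m + e) * h' = m * h' + e * h' := by ring
    rw [← he, ← em, ← el] at e1
    rw [← he, ← hth, ← hh'] at e2
    have e3 : e * (h + h') = e * h + e * h' := by ring
    rw [e3]; omega
  have hs1 : IsSquare ((l + m) * e * (k₁ * k₂)) := by
    apply sq2_sq (s := h + h') (t := 2 * (k₁ * k₂ * v₁ * u₂)) (by omega)
    calc (l + m) * e * (k₁ * k₂) * (h + h') ^ 2
        = ((l + m) * (h + h')) * (e * (h + h')) * (k₁ * k₂) := by ring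
      _ = (2 * (k₁ * v₁ ^ 2)) * (2 * (k₂ * u₂ ^ 2)) * (k₁ * k₂) := by rw [i1, i4]
      _ = (2 * (k₁ * k₂ * v₁ * u₂)) ^ 2 := by ring
  have hs2 : IsSquare ((h + h') * j * (k₁ * k₂)) := by
    apply sq2_sq (s := l + m) (t := 2 * (k₁ * k₂ * v₁ * v₂)) (by omega)
    calc (h + h') * j * (k₁ * k₂) * (l + m) ^ 2
        = ((l + m) * (h + h')) * ((l + m) * j) * (k₁ * k₂) := by ring
      _ = (2 * (k₁ * v₁ ^ 2)) * (2 * (k₂ * v₂ ^ 2)) * (k₁ * k₂) := by rw [i1, i2]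
      _ = (2 * (k₁ * k₂ * v₁ * v₂)) ^ 2 := by ring
  have hg1 : Nat.gcd (l + m) e ≤ 2 := by
    have e1 : Nat.gcd (l + m) e ∣ 2 * l := by
      have : 2 * l = (l + m) + e := by omega
      rw [this]
      exact Nat.dvd_add (Nat.gcd_dvd_left _ _) (Nat.gcd_dvd_right _ _)
    have e2 : Nat.gcd (l + m) e ∣ 2 * m := by
      have h3 : Nat.gcd (l + m) e ∣ e + 2 * m := by
        have : e + 2 * m = l + m := by omega
        rw [this]
        exact Nat.gcd_dvd_left _ _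
      exact (Nat.dvd_add_right (Nat.gcd_dvd_right _ _)).1 h3
    have e3 : Nat.gcd (l + m) e ∣ 2 * Nat.gcd m l := by
      rw [← Nat.gcd_mul_left]
      exact Nat.dvd_gcd e2 e1
    rw [hml.gcd_eq_one] at e3
    exact Nat.le_of_dvd (by norm_num) e3
  have hg2 : Nat.gcd (h + h') j ≤ 4 * K := by
    have e1 : Nat.gcd (h + h') j ∣ 2 * h := by
      have : 2 * h = (h + h') + j := by omega
      rw [this]
      exact Nat.dvd_add (Nat.gcd_dvd_left _ _) (Nat.gcd_dvd_right _ _)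
    have e2 : Nat.gcd (h + h') j ∣ 2 * h' := by
      have h3 : Nat.gcd (h + h') j ∣ j + 2 * h' := by
        have : j + 2 * h' = h + h' := by omega
        rw [this]
        exact Nat.gcd_dvd_left _ _
      exact (Nat.dvd_add_right (Nat.gcd_dvd_right _ _)).1 h3
    have e3 : Nat.gcd (h + h') j ∣ 2 * Nat.gcd h h' := by
      rw [← Nat.gcd_mul_left]
      exact Nat.dvd_gcd e1 e2
    have e4 := Nat.le_of_dvd (Nat.mul_pos two_pos (Nat.gcd_pos_of_pos_left _ hh0)) e3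
    omega
  have hkk0 : 0 < k₁ * k₂ := Nat.mul_pos hk1 hk2
  have hkk : k₁ * k₂ ≤ 4 * K ^ 2 := by
    calc k₁ * k₂ ≤ (2 * K) * (2 * K) := Nat.mul_le_mul hk1' hk2'
      _ = 4 * K ^ 2 := by ring
  have hK23 : K ^ 2 ≤ K ^ 3 := Nat.pow_le_pow_right hKpos (by norm_num)
  have hS1 : k₁ * k₂ * 2 ≤ 16 * K ^ 3 := by omega
  have hS2 : k₁ * k₂ * (4 * K) ≤ 16 * K ^ 3 := by
    calc k₁ * k₂ * (4 * K) ≤ 4 * K ^ 2 * (4 * K) := Nat.mul_le_mul_right _ hkk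
      _ = 16 * K ^ 3 := by ring
  have hle : l - m = e := by omega
  have hhj : h - h' = j := by omega
  have hs1' : IsSquare (e * (l + m) * (k₁ * k₂)) := by rw [mul_comm e]; exact hs1
  have hs2' : IsSquare (j * (h + h') * (k₁ * k₂)) := by rw [mul_comm j]; exact hs2
  refine ⟨m, l, h, h', ⟨hm0, hmlt, hh'0, hhlt, hml, hq, ?_, ?_, ?_, ?_⟩, em, ?_, el, ?_⟩
  · exact sq2_mono hS1 (h2 _ _ _ _ (by omega) he0 hkk0 hs1 hg1)
  · rw [hle]
    exact sq2_mono hS1 (h2 _ _ _ _ he0 (by omega) hkk0 hs1' (by rw [Nat.gcd_comm]; exact hg1))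
  · exact sq2_mono hS2 (h2 _ _ _ _ (by omega) hj0 hkk0 hs2 hg2)
  · rw [hhj]
    exact sq2_mono hS2 (h2 _ _ _ _ hj0 (by omega) hkk0 hs2' (by rw [Nat.gcd_comm]; exact hg2))
  · rw [hd, hh']
  · rw [ht, hth]

end Pool.Agent.Helper89.TT
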